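import Pool.Agent.Lib_helper59.LDS.Cnv
import Pool.Agent.Lib_helper57.LDS.Pos
import Pool.Agent.Lib_helper96.LDS.Ser
import Pool.Agent.Lib_helper12.LDS.Det

/-! # LDS, ASM: the assembly -/

set_option autoImplicit false

open scoped ENNReal ComplexOrder Kronecker

namespace Pool.Agent.LDS

open Matrix MeasureTheory
open Pool.Agent.Lib_helper98.Renyi Pool.Agent.Lib_helper59.Lieb Pool.Agent.Lib_helper59.RCT

variable {n m κ : Type} [Fintype n] [DecidableEq n] [Fintype m] [DecidableEq m]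
  [Fintype κ] [DecidableEq κ]

/-! ### one word -/

theorem asm_E_neg {A D : Matrix n n ℂ} (p : ℝ × ℝ) : E A (-D) p = E A D (p.1, -p.2) := by
  unfold E
  simp only
  congr 2
  rw [smul_neg, neg_smul]

theorem asm_E_zero {A D : Matrix n n ℂ} (p : ℝ × ℝ) :
    E A (0 : Matrix n n ℂ) p = E A D (p.1, 0) := by
  unfold E
  simp only [smul_zero, zero_smul]

theorem asm_PP_neg {A D : Matrix n n ℂ} (h : PP A D) : PP A (-D) :=
  ⟨by rw [← sub_eq_add_neg]; exact h.sub, by rw [sub_neg_eq_add]; exact h.add⟩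

theorem asm_PP_zero {A D : Matrix n n ℂ} (h : PP A D) : PP A 0 :=
  ⟨by rw [add_zero]; exact h.psd, by rw [sub_zero]; exact h.psd⟩

theorem asm_meas {A D : Matrix n n ℂ} (hA : A.IsHermitian) (hD : D.IsHermitian) :
    Measurable fun p : ℝ × ℝ => ENNReal.ofReal (E A D p) :=
  ENNReal.measurable_ofReal.comp (continuous_E hA hD).measurable

/-- the second difference under one admissible measure -/
theorem asm_split {A D : Matrix n n ℂ} (h : PP A D) {ρ : Measure (ℝ × ℝ)}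
    (hρ : ∀ᵐ p ∂ρ, |p.2| ≤ p.1) :
    ∫⁻ p, ENNReal.ofReal (sd en (p.1 • A) (p.2 • D)) ∂ρ + ∫⁻ p, ENNReal.ofReal (E A 0 p) ∂ρ =
      2⁻¹ * ∫⁻ p, ENNReal.ofReal (E A D p) ∂ρ + 2⁻¹ * ∫⁻ p, ENNReal.ofReal (E A (-D) p) ∂ρ := by
  have hz : (0 : Matrix n n ℂ).IsHermitian := isHermitian_zero
  rw [← lintegral_add_right _ (asm_meas h.psd.1 hz),
    ← lintegral_const_mul _ (asm_meas h.psd.1 h.herm),
    ← lintegral_const_mul _ (asm_meas h.psd.1 h.herm.neg),
    ← lintegral_add_right _ ((asm_meas h.psd.1 h.herm.neg).const_mul _)]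
  refine lintegral_congr_ae ?_
  filter_upwards [hρ] with p hp
  have h0 : 0 ≤ sd en (p.1 • A) (p.2 • D) := sd_nonneg convexOn_exp_neg (Sheet.PP.dir h hp)
  have h1 := E_nonneg h.psd.1 hz p
  have h2 := E_nonneg h.psd.1 h.herm p
  have h3 := E_nonneg h.psd.1 h.herm.neg p
  have h4 : (2 : ℝ≥0∞)⁻¹ = ENNReal.ofReal (1 / 2) := by
    rw [one_div, ENNReal.ofReal_inv_of_pos two_pos, ENNReal.ofReal_ofNat]
  rw [← ENNReal.ofReal_add h0 h1, h4, ← ENNReal.ofReal_mul (by norm_num),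
    ← ENNReal.ofReal_mul (by norm_num), ← ENNReal.ofReal_add (by positivity) (by positivity)]
  congr 1
  rw [sd_en_eq h.psd.1 h.herm p, asm_E_neg, asm_E_zero (D := D)]
  simp only [Prod.mk.eta]
  ring

/-- domination along a word -/
theorem asm_le {g a d : m → ℝ} {A D : Matrix n n ℂ} (h : PP A D)
    (hU : ∀ i, (let3 g a d A D i).PosDef) (i : m) (L : List m) :
    ∫⁻ p, ENNReal.ofReal (E A D p) ∂cnv g a d (i :: L) ≤
      ENNReal.ofReal (rtr (cfc Real.exp (-(lg (let3 g a d A D) i +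
        (L.map (lg (let3 g a d A D))).sum)))) := by
  have h1 := cnv_le (Q := 0) h.psd.1 h.herm isHermitian_zero hU (i :: L)
  simp only [zero_sub, List.map_cons, List.sum_cons] at h1
  exact h1

/-- the letters of a commuting pair -/
theorem asm_let3 {g a d : m → ℝ} {V : Matrix n n ℂ} (hV' : V * Vᴴ = 1) (α δ : n → ℝ) (i : m) :
    let3 g a d (V * dg α * Vᴴ) (V * dg δ * Vᴴ) i =
      V * dg (fun y => g i + a i * α y + d i * δ y) * Vᴴ := by
  unfold let3
  have e1 : g i • (1 : Matrix n n ℂ) = V * dg (fun _ => g i) * Vᴴ := by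
    rw [dg_const, Matrix.mul_smul, Matrix.mul_one, Matrix.smul_mul, hV']
  rw [e1, smul_conj_dg, smul_conj_dg, ← Matrix.add_mul, ← Matrix.mul_add, ← Matrix.add_mul,
    ← Matrix.mul_add, dg, dg, dg, diagonal_add, diagonal_add]
  congr 3
  funext y
  push_cast
  rfl

/-- the scalar value of a word -/
noncomputable def asm_T (u : m → n → ℝ) (i : m) {k : ℕ} (x : Fin k → m) : ℝ :=
  ∑ y, ((u i y)⁻¹ * ((List.ofFn x).map fun j => (u j y)⁻¹).prod)

theorem asm_T_nonneg {u : m → n → ℝ} (hu : ∀ i y, 0 < u i y) (i : m) {k : ℕ} (x : Fin k → m) :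
    0 ≤ asm_T u i x := by
  refine Finset.sum_nonneg fun y _ => mul_nonneg (inv_nonneg.2 (hu i y).le) ?_
  refine List.prod_nonneg fun z hz => ?_
  obtain ⟨j, -, rfl⟩ := List.mem_map.1 hz
  exact inv_nonneg.2 (hu j y).le

/-- equality along a word -/
theorem asm_eq {g a d : m → ℝ} {V : Matrix n n ℂ} (hV : Vᴴ * V = 1) (hV' : V * Vᴴ = 1)
    {α δ : n → ℝ} (hpos : ∀ i y, 0 < g i + a i * α y + d i * δ y) (i : m) {k : ℕ}
    (x : Fin k → m) :
    ∫⁻ p, ENNReal.ofReal (E (V * dg α * Vᴴ) (V * dg δ * Vᴴ) p) ∂cnv g a d (i :: List.ofFn x) =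
      ENNReal.ofReal (asm_T (fun i y => g i + a i * α y + d i * δ y) i x) := by
  have h1 := cnv_eq hV hV' hpos (i :: List.ofFn x)
  simp only [List.map_cons, List.prod_cons] at h1
  exact h1

/-! ### all words of one length -/

/-- the words of length `k + 1` under a function of words -/
noncomputable def asm_S (Q : Matrix m m ℝ) (k : ℕ) (f : m → (Fin k → m) → ℝ≥0∞) : ℝ≥0∞ :=
  ∑ i, ∑ x : Fin k → m, ENNReal.ofReal (cwt Q i (List.ofFn x) / (k + 1)) * f i x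

theorem asm_w_nonneg {Q : Matrix m m ℝ} (hQ : ∀ i j, 0 ≤ Q i j) (i : m) {k : ℕ}
    (x : Fin k → m) : 0 ≤ cwt Q i (List.ofFn x) / (k + 1) := by
  have := cwt_nonneg hQ i (List.ofFn x)
  positivity

theorem asm_S_ofReal {Q : Matrix m m ℝ} (hQ : ∀ i j, 0 ≤ Q i j) (k : ℕ)
    {f : m → (Fin k → m) → ℝ} (hf : ∀ i x, 0 ≤ f i x) :
    asm_S Q k (fun i x => ENNReal.ofReal (f i x)) =
      ENNReal.ofReal (∑ i, ∑ x : Fin k → m, cwt Q i (List.ofFn x) / (k + 1) * f i x) := by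
  unfold asm_S
  rw [ENNReal.ofReal_sum_of_nonneg fun i _ => Finset.sum_nonneg fun x _ =>
    mul_nonneg (asm_w_nonneg hQ i x) (hf i x)]
  refine Finset.sum_congr rfl fun i _ => ?_
  rw [ENNReal.ofReal_sum_of_nonneg fun x _ => mul_nonneg (asm_w_nonneg hQ i x) (hf i x)]
  refine Finset.sum_congr rfl fun x _ => ?_
  rw [ENNReal.ofReal_mul (asm_w_nonneg hQ i x)]

theorem asm_S_mono (Q : Matrix m m ℝ) (k : ℕ) {f f' : m → (Fin k → m) → ℝ≥0∞}
    (h : ∀ i x, f i x ≤ f' i x) : asm_S Q k f ≤ asm_S Q k f' :=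
  Finset.sum_le_sum fun i _ => Finset.sum_le_sum fun x _ => mul_le_mul_right (h i x) _

theorem asm_S_add (Q : Matrix m m ℝ) (k : ℕ) (f f' : m → (Fin k → m) → ℝ≥0∞) :
    asm_S Q k (fun i x => f i x + f' i x) = asm_S Q k f + asm_S Q k f' := by
  unfold asm_S
  simp only [mul_add, Finset.sum_add_distrib]

theorem asm_S_mul (Q : Matrix m m ℝ) (k : ℕ) (c : ℝ≥0∞) (f : m → (Fin k → m) → ℝ≥0∞) :
    asm_S Q k (fun i x => c * f i x) = c * asm_S Q k f := by
  unfold asm_S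
  simp only [Finset.mul_sum]
  refine Finset.sum_congr rfl fun i _ => Finset.sum_congr rfl fun x _ => ?_
  ring

/-- the measure of the words of length `k + 1` -/
noncomputable def asm_M (g a d : m → ℝ) (Q : Matrix m m ℝ) (k : ℕ) : Measure (ℝ × ℝ) :=
  Measure.sum fun p : m × (Fin k → m) =>
    ENNReal.ofReal (cwt Q p.1 (List.ofFn p.2) / (k + 1)) • cnv g a d (p.1 :: List.ofFn p.2)

theorem asm_M_lint (g a d : m → ℝ) (Q : Matrix m m ℝ) (k : ℕ) (F : ℝ × ℝ → ℝ≥0∞) :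
    ∫⁻ p, F p ∂asm_M g a d Q k =
      asm_S Q k (fun i x => ∫⁻ p, F p ∂cnv g a d (i :: List.ofFn x)) := by
  unfold asm_M asm_S
  rw [lintegral_sum_measure, tsum_fintype, Fintype.sum_prod_type]
  refine Finset.sum_congr rfl fun i _ => Finset.sum_congr rfl fun x _ => ?_
  rw [lintegral_smul_measure, smul_eq_mul]

theorem asm_M_sfinite (g a d : m → ℝ) (Q : Matrix m m ℝ) (k : ℕ) :
    SFinite (asm_M g a d Q k) := by
  have : ∀ p : m × (Fin k → m), SFinite (ENNReal.ofReal (cwt Q p.1 (List.ofFn p.2) / (k + 1)) •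
      cnv g a d (p.1 :: List.ofFn p.2)) := fun p => by
    have := cnv_sfinite g a d (p.1 :: List.ofFn p.2)
    infer_instance
  unfold asm_M
  infer_instance

theorem asm_M_adm {g a d : m → ℝ} (had : ∀ i, |d i| ≤ a i) (Q : Matrix m m ℝ) (k : ℕ) :
    ∀ᵐ p ∂asm_M g a d Q k, |p.2| ≤ p.1 := by
  unfold asm_M
  rw [Measure.ae_sum_iff]
  intro p
  exact Measure.ae_smul_measure (cnv_adm had _) _

/-- the whole measure -/
noncomputable def asm_mu (g a d : m → ℝ) (Q : Matrix m m ℝ) : Measure (ℝ × ℝ) :=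
  Measure.sum (fun k : ℕ => asm_M g a d Q k) + Measure.sum fun i => lf (g i) (a i) (d i)

theorem asm_mu_lint (g a d : m → ℝ) (Q : Matrix m m ℝ) (F : ℝ × ℝ → ℝ≥0∞) :
    ∫⁻ p, F p ∂asm_mu g a d Q =
      ∑' k : ℕ, asm_S Q k (fun i x => ∫⁻ p, F p ∂cnv g a d (i :: List.ofFn x)) +
        ∑ i, ∫⁻ p, F p ∂lf (g i) (a i) (d i) := by
  unfold asm_mu
  rw [lintegral_add_measure, lintegral_sum_measure, lintegral_sum_measure]
  congr 1
  · exact tsum_congr fun k => asm_M_lint g a d Q k F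
  · exact tsum_fintype _

theorem asm_mu_sfinite (g a d : m → ℝ) (Q : Matrix m m ℝ) : SFinite (asm_mu g a d Q) := by
  have h1 : ∀ k : ℕ, SFinite (asm_M g a d Q k) := fun k => asm_M_sfinite g a d Q k
  have h2 : ∀ i, SFinite (lf (g i) (a i) (d i)) := fun i => lf_sfinite _ _ _
  unfold asm_mu
  infer_instance

theorem asm_mu_adm {g a d : m → ℝ} (had : ∀ i, |d i| ≤ a i) (Q : Matrix m m ℝ) :
    ∀ᵐ p ∂asm_mu g a d Q, |p.2| ≤ p.1 := by
  unfold asm_mu
  rw [ae_add_measure_iff, Measure.ae_sum_iff, Measure.ae_sum_iff]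
  exact ⟨fun k => asm_M_adm had Q k, fun i => lf_adm (had i)⟩

/-! ### the sum over all words -/

/-- the logarithmic side -/
noncomputable def asm_W (g a d : m → ℝ) (Q : Matrix m m ℝ) (A D : Matrix n n ℂ) : ℝ :=
  ∑ i, Ld (let3 g a d A D i) - Ld (net (let3 g a d A D) Q)

/-- all words under the law of one pair -/
noncomputable def asm_X (g a d : m → ℝ) (Q : Matrix m m ℝ) (A D : Matrix n n ℂ) : ℝ≥0∞ :=
  ∑' k : ℕ, asm_S Q k
    (fun i x => ∫⁻ p, ENNReal.ofReal (E A D p) ∂cnv g a d (i :: List.ofFn x))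

theorem asm_rtr_nonneg (U : m → Matrix n n ℂ) (i : m) (L : List m) :
    0 ≤ rtr (cfc Real.exp (-(lg U i + (L.map (lg U)).sum))) := by
  refine rtr_exp_nonneg ?_
  have h := cnv_lg_herm U (i :: L)
  simp only [List.map_cons, List.sum_cons] at h
  exact h.neg

theorem asm_X_le {g a d : m → ℝ} {S : Matrix m m ℝ} (hQ : ∀ i j, 0 ≤ (S * Sᵀ) i j)
    {A D : Matrix n n ℂ} (h : PP A D) (hU : ∀ i, (let3 g a d A D i).PosDef)
    (hM : (net (let3 g a d A D) (S * Sᵀ)).PosDef) :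
    0 ≤ asm_W g a d (S * Sᵀ) A D ∧
      asm_X g a d (S * Sᵀ) A D ≤ ENNReal.ofReal (asm_W g a d (S * Sᵀ) A D) := by
  have hl := logw (let3 g a d A D) hU S hQ hM
  refine ⟨?_, ?_⟩
  · have h0 := hl 0
    rw [Finset.range_zero, Finset.sum_empty] at h0
    exact h0
  · refine ENNReal.tsum_le_of_sum_range_le fun N => ?_
    have h1 : ∀ k : ℕ, asm_S (S * Sᵀ) k
        (fun i x => ∫⁻ p, ENNReal.ofReal (E A D p) ∂cnv g a d (i :: List.ofFn x)) ≤
        ENNReal.ofReal (∑ i, ∑ x : Fin k → m, cwt (S * Sᵀ) i (List.ofFn x) / (k + 1) *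
          rtr (cfc Real.exp (-(lg (let3 g a d A D) i +
            ((List.ofFn x).map (lg (let3 g a d A D))).sum)))) := by
      intro k
      rw [← asm_S_ofReal hQ k fun i x => asm_rtr_nonneg _ i (List.ofFn x)]
      exact asm_S_mono _ k fun i x => asm_le h hU i (List.ofFn x)
    refine le_trans (Finset.sum_le_sum fun k _ => h1 k) ?_
    rw [← ENNReal.ofReal_sum_of_nonneg fun k _ => Finset.sum_nonneg fun i _ =>
      Finset.sum_nonneg fun x _ => mul_nonneg (asm_w_nonneg hQ i x) (asm_rtr_nonneg _ i _)]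
    exact ENNReal.ofReal_le_ofReal (hl N)

theorem asm_X_eq {g a d : m → ℝ} {S : Matrix m m ℝ} (hQ : ∀ i j, 0 ≤ (S * Sᵀ) i j)
    {V : Matrix n n ℂ} (hV : Vᴴ * V = 1) (hV' : V * Vᴴ = 1) {α δ : n → ℝ}
    (hpos : ∀ i y, 0 < g i + a i * α y + d i * δ y)
    (hM : (net (let3 g a d (V * dg α * Vᴴ) (V * dg δ * Vᴴ)) (S * Sᵀ)).PosDef) :
    asm_X g a d (S * Sᵀ) (V * dg α * Vᴴ) (V * dg δ * Vᴴ) =
      ENNReal.ofReal (asm_W g a d (S * Sᵀ) (V * dg α * Vᴴ) (V * dg δ * Vᴴ)) := by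
  have hlet : let3 g a d (V * dg α * Vᴴ) (V * dg δ * Vᴴ) =
      fun i => V * dg ((fun i y => g i + a i * α y + d i * δ y) i) * Vᴴ := by
    funext i
    exact asm_let3 hV' α δ i
  rw [hlet] at hM
  have hs := ser_comm hV hV' (fun i y => g i + a i * α y + d i * δ y) hpos S hM
  have hnn : ∀ k : ℕ, 0 ≤ ∑ i, ∑ x : Fin k → m, cwt (S * Sᵀ) i (List.ofFn x) / (k + 1) *
      asm_T (fun i y => g i + a i * α y + d i * δ y) i x := fun k =>
    Finset.sum_nonneg fun i _ => Finset.sum_nonneg fun x _ =>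
      mul_nonneg (asm_w_nonneg hQ i x) (asm_T_nonneg hpos i x)
  unfold asm_X asm_W
  rw [hlet, ← hs.tsum_eq]
  have h2 := ENNReal.ofReal_tsum_of_nonneg hnn hs.summable
  refine Eq.trans (tsum_congr fun k => ?_) h2.symm
  rw [← asm_S_ofReal hQ k fun i x => asm_T_nonneg hpos i x]
  unfold asm_S
  refine Finset.sum_congr rfl fun i _ => Finset.sum_congr rfl fun x _ => ?_
  beta_reduce
  rw [asm_eq hV hV' hpos i x]

/-- the split, summed over all words -/
theorem asm_total {g a d : m → ℝ} (had : ∀ i, |d i| ≤ a i) (Q : Matrix m m ℝ)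
    {A D : Matrix n n ℂ} (h : PP A D) :
    ∑' k : ℕ, asm_S Q k (fun i x => ∫⁻ p, ENNReal.ofReal (sd en (p.1 • A) (p.2 • D))
      ∂cnv g a d (i :: List.ofFn x)) + asm_X g a d Q A (0 : Matrix n n ℂ) =
      2⁻¹ * asm_X g a d Q A D + 2⁻¹ * asm_X g a d Q A (-D) := by
  unfold asm_X
  rw [← ENNReal.tsum_add, ← ENNReal.tsum_mul_left, ← ENNReal.tsum_mul_left, ← ENNReal.tsum_add]
  refine tsum_congr fun k => ?_
  rw [← asm_S_add, ← asm_S_mul, ← asm_S_mul, ← asm_S_add]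
  congr 1
  funext i x
  exact asm_split h (cnv_adm had _)

theorem asm_half {x y : ℝ} (hx : 0 ≤ x) (hy : 0 ≤ y) :
    2⁻¹ * ENNReal.ofReal x + 2⁻¹ * ENNReal.ofReal y = ENNReal.ofReal ((x + y) / 2) := by
  have h4 : (2 : ℝ≥0∞)⁻¹ = ENNReal.ofReal (1 / 2) := by
    rw [one_div, ENNReal.ofReal_inv_of_pos two_pos, ENNReal.ofReal_ofNat]
  rw [h4, ← ENNReal.ofReal_mul (by norm_num), ← ENNReal.ofReal_mul (by norm_num),
    ← ENNReal.ofReal_add (by positivity) (by positivity)]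
  congr 1
  ring

/-- leaf of one letter -/
noncomputable def asm_r (g a d : ℝ) (A D : Matrix n n ℂ) : ℝ :=
  Ld (g • (1 : Matrix n n ℂ) + a • A) - (Ld (g • (1 : Matrix n n ℂ) + a • A + d • D) +
    Ld (g • (1 : Matrix n n ℂ) + a • A - d • D)) / 2

theorem asm_lf {g a d : ℝ} (hg : 0 < g) (had : |d| ≤ a) {A D : Matrix n n ℂ} (h : PP A D) :
    0 ≤ asm_r g a d A D ∧ ∫⁻ p, ENNReal.ofReal (sd en (p.1 • A) (p.2 • D)) ∂lf g a d =
      ENNReal.ofReal (asm_r g a d A D) := lf_eq' hg had h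

section

variable {g a d : m → ℝ} {S : Matrix m m ℝ}

/-- domination, from the properties of the letters and of the net -/
theorem asm_main_le (had : ∀ i, |d i| ≤ a i) (hg : ∀ i, 0 < g i)
    (hQ : ∀ i j, 0 ≤ (S * Sᵀ) i j)
    (hU : ∀ {D A : Matrix n n ℂ}, PP A D → ∀ i, (let3 g a d A D i).PosDef)
    (hM : ∀ {D A : Matrix n n ℂ}, PP A D → (net (let3 g a d A D) (S * Sᵀ)).PosDef)
    {A D : Matrix n n ℂ} (h : PP A D) :
    ∫⁻ p, ENNReal.ofReal (sd en (p.1 • A) (p.2 • D)) ∂asm_mu g a d (S * Sᵀ) ≤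
      ENNReal.ofReal ((asm_W g a d (S * Sᵀ) A D + asm_W g a d (S * Sᵀ) A (-D)) / 2 -
        asm_W g a d (S * Sᵀ) A 0 + ∑ i, asm_r (g i) (a i) (d i) A D) := by
  have hp := asm_X_le hQ h (hU h) (hM h)
  have hm := asm_X_le hQ (asm_PP_neg h) (hU (asm_PP_neg h)) (hM (asm_PP_neg h))
  have h00 := asm_X_le hQ (asm_PP_zero h) (hU (asm_PP_zero h)) (hM (asm_PP_zero h))
  -- the middle term exactly
  have h0 : asm_X g a d (S * Sᵀ) A (0 : Matrix n n ℂ) =
      ENNReal.ofReal (asm_W g a d (S * Sᵀ) A (0 : Matrix n n ℂ)) := by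
    obtain ⟨V, α, hV, hV', hα, hA⟩ := exists_spectral_nonneg h.psd
    have hz : (0 : Matrix n n ℂ) = V * dg (fun _ => (0 : ℝ)) * Vᴴ := by
      rw [dg_const, zero_smul, Matrix.mul_zero, Matrix.zero_mul]
    have hA' : A = V * dg α * Vᴴ := hA
    have hM0 := hM (asm_PP_zero h)
    rw [hz, hA'] at hM0
    have := asm_X_eq (g := g) (a := a) (d := d) hQ hV hV' (α := α) (δ := fun _ => 0) (fun i y => by
      have h1 : 0 ≤ a i := (abs_nonneg _).trans (had i)
      have h2 := mul_nonneg h1 (hα y)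
      have h3 := hg i
      simp only [mul_zero, add_zero]
      linarith) hM0
    rw [← hz, ← hA'] at this
    exact this
  have ht := asm_total (g := g) (a := a) (d := d) had (S * Sᵀ) h
  rw [h0] at ht
  rw [asm_mu_lint]
  set Y := ∑' k : ℕ, asm_S (S * Sᵀ) k (fun i x => ∫⁻ p,
    ENNReal.ofReal (sd en (p.1 • A) (p.2 • D)) ∂cnv g a d (i :: List.ofFn x)) with hY
  have h1 : Y + ENNReal.ofReal (asm_W g a d (S * Sᵀ) A (0 : Matrix n n ℂ)) ≤
      ENNReal.ofReal ((asm_W g a d (S * Sᵀ) A D + asm_W g a d (S * Sᵀ) A (-D)) / 2) := by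
    rw [ht, ← asm_half hp.1 hm.1]
    exact add_le_add (mul_le_mul_right hp.2 _) (mul_le_mul_right hm.2 _)
  have h2 : Y ≤ ENNReal.ofReal ((asm_W g a d (S * Sᵀ) A D + asm_W g a d (S * Sᵀ) A (-D)) / 2 -
      asm_W g a d (S * Sᵀ) A (0 : Matrix n n ℂ)) := by
    rw [ENNReal.ofReal_sub _ h00.1]
    exact ENNReal.le_sub_of_add_le_right ENNReal.ofReal_ne_top h1
  have h3 : 0 ≤ (asm_W g a d (S * Sᵀ) A D + asm_W g a d (S * Sᵀ) A (-D)) / 2 -
      asm_W g a d (S * Sᵀ) A (0 : Matrix n n ℂ) := by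
    have h4 := (ENNReal.ofReal_le_ofReal_iff (by linarith [hp.1, hm.1])).1
      (le_trans le_add_self h1)
    linarith
  have h5 : ∑ i, ∫⁻ p, ENNReal.ofReal (sd en (p.1 • A) (p.2 • D)) ∂lf (g i) (a i) (d i) =
      ENNReal.ofReal (∑ i, asm_r (g i) (a i) (d i) A D) := by
    rw [ENNReal.ofReal_sum_of_nonneg fun i _ => (asm_lf (hg i) (had i) h).1]
    exact Finset.sum_congr rfl fun i _ => (asm_lf (hg i) (had i) h).2
  rw [h5, ENNReal.ofReal_add h3 (Finset.sum_nonneg fun i _ => (asm_lf (hg i) (had i) h).1)]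
  exact add_le_add h2 le_rfl

/-- equality for diagonal pairs -/
theorem asm_main_eq (had : ∀ i, |d i| ≤ a i) (hg : ∀ i, 0 < g i)
    (hQ : ∀ i j, 0 ≤ (S * Sᵀ) i j)
    (hU : ∀ {D A : Matrix n n ℂ}, PP A D → ∀ i, (let3 g a d A D i).PosDef)
    (hM : ∀ {D A : Matrix n n ℂ}, PP A D → (net (let3 g a d A D) (S * Sᵀ)).PosDef)
    {α δ : n → ℝ} (hδ : ∀ y, |δ y| ≤ α y) :
    ∫⁻ p, ENNReal.ofReal (sd en (p.1 • (dg α : Matrix n n ℂ)) (p.2 • dg δ))
        ∂asm_mu g a d (S * Sᵀ) =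
      ENNReal.ofReal ((asm_W g a d (S * Sᵀ) (dg α : Matrix n n ℂ) (dg δ) +
        asm_W g a d (S * Sᵀ) (dg α : Matrix n n ℂ) (-dg δ)) / 2 -
        asm_W g a d (S * Sᵀ) (dg α : Matrix n n ℂ) 0 +
          ∑ i, asm_r (g i) (a i) (d i) (dg α : Matrix n n ℂ) (dg δ)) := by
  have h : PP (dg α : Matrix n n ℂ) (dg δ) := PP.dg hδ
  have hp := asm_X_le hQ h (hU h) (hM h)
  have hm := asm_X_le hQ (asm_PP_neg h) (hU (asm_PP_neg h)) (hM (asm_PP_neg h))
  have h00 := asm_X_le hQ (asm_PP_zero h) (hU (asm_PP_zero h)) (hM (asm_PP_zero h))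
  have hone : (1 : Matrix n n ℂ)ᴴ * 1 = 1 := by simp
  have hone' : (1 : Matrix n n ℂ) * 1ᴴ = 1 := by simp
  have key : ∀ ε : n → ℝ, (∀ y, |ε y| ≤ α y) →
      asm_X g a d (S * Sᵀ) (dg α : Matrix n n ℂ) (dg ε) =
        ENNReal.ofReal (asm_W g a d (S * Sᵀ) (dg α : Matrix n n ℂ) (dg ε)) := by
    intro ε hε
    have e1 : ∀ c : n → ℝ, (dg c : Matrix n n ℂ) = 1 * dg c * 1ᴴ := fun c => by simp
    have hM0 := hM (PP.dg hε)
    have hpos : ∀ i y, 0 < g i + a i * α y + d i * ε y := by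
      intro i y
      have h1 := hg i
      have h2 : |d i * ε y| ≤ a i * α y := by
        rw [abs_mul]
        exact mul_le_mul (had i) (hε y) (abs_nonneg _) ((abs_nonneg _).trans (had i))
      have h3 := (abs_le.1 h2).1
      linarith
    rw [e1 α, e1 ε] at hM0
    have := asm_X_eq (g := g) (a := a) (d := d) hQ hone hone' hpos hM0
    rw [← e1 α, ← e1 ε] at this
    exact this
  have hneg : -(dg δ : Matrix n n ℂ) = dg (fun y => -δ y) := by
    rw [dg, dg, diagonal_neg]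
    congr 1
    funext y
    simp
  have hzero : (0 : Matrix n n ℂ) = dg (fun _ => (0 : ℝ)) := by
    rw [dg_const, zero_smul]
  have k1 := key δ hδ
  have k2 := key (fun y => -δ y) (fun y => by rw [abs_neg]; exact hδ y)
  have k3 := key (fun _ => 0) (fun y => by rw [abs_zero]; exact (abs_nonneg _).trans (hδ y))
  rw [← hneg] at k2
  rw [← hzero] at k3
  have ht := asm_total (g := g) (a := a) (d := d) had (S * Sᵀ) h
  rw [k1, k2, k3, asm_half hp.1 hm.1] at ht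
  rw [asm_mu_lint]
  set Y := ∑' k : ℕ, asm_S (S * Sᵀ) k (fun i x => ∫⁻ p,
    ENNReal.ofReal (sd en (p.1 • (dg α : Matrix n n ℂ)) (p.2 • dg δ))
      ∂cnv g a d (i :: List.ofFn x)) with hY
  have h2 : Y = ENNReal.ofReal ((asm_W g a d (S * Sᵀ) (dg α : Matrix n n ℂ) (dg δ) +
      asm_W g a d (S * Sᵀ) (dg α : Matrix n n ℂ) (-dg δ)) / 2 -
      asm_W g a d (S * Sᵀ) (dg α : Matrix n n ℂ) 0) := by
    rw [ENNReal.ofReal_sub _ h00.1, ← ht]
    exact (ENNReal.add_sub_cancel_right ENNReal.ofReal_ne_top).symm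
  have h3 : 0 ≤ (asm_W g a d (S * Sᵀ) (dg α : Matrix n n ℂ) (dg δ) +
      asm_W g a d (S * Sᵀ) (dg α : Matrix n n ℂ) (-dg δ)) / 2 -
      asm_W g a d (S * Sᵀ) (dg α : Matrix n n ℂ) 0 := by
    have h4 := (ENNReal.ofReal_le_ofReal_iff (by linarith [hp.1, hm.1])).1
      (le_trans le_add_self (le_of_eq ht))
    linarith
  have h5 : ∑ i, ∫⁻ p, ENNReal.ofReal (sd en (p.1 • (dg α : Matrix n n ℂ)) (p.2 • dg δ))
      ∂lf (g i) (a i) (d i) =
      ENNReal.ofReal (∑ i, asm_r (g i) (a i) (d i) (dg α : Matrix n n ℂ) (dg δ)) := by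
    rw [ENNReal.ofReal_sum_of_nonneg fun i _ => (asm_lf (hg i) (had i) h).1]
    exact Finset.sum_congr rfl fun i _ => (asm_lf (hg i) (had i) h).2
  rw [h5, h2, ENNReal.ofReal_add h3 (Finset.sum_nonneg fun i _ => (asm_lf (hg i) (had i) h).1)]

end

/-! ### the gauge -/

theorem Obt.shift {F : Matrix κ m ℂ} {g : m → ℝ} {K : Matrix m m ℝ} (h : Obt F g K) (c : ℝ)
    (hn : ∀ i j, 0 ≤ (K + c • (1 : Matrix m m ℝ)) i j) :
    Obt F (fun i => g i + c) (K + c • (1 : Matrix m m ℝ)) := by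
  refine ⟨?_, hn⟩
  have e : (dg (fun i => g i + c) - cm (K + c • (1 : Matrix m m ℝ)) : Matrix m m ℂ) =
      dg g - cm K := by
    ext i j
    simp only [Matrix.sub_apply, diagonal_apply, cm, Matrix.map_apply, Matrix.add_apply,
      Matrix.smul_apply, Matrix.one_apply, smul_eq_mul]
    split
    · push_cast
      ring
    · push_cast
      ring
  rw [e]
  exact h.inv

theorem Obt.diagDom {F : Matrix κ m ℂ} {g : m → ℝ} {K : Matrix m m ℝ} (h : Obt F g K)
    {a d : m → ℝ} (had : ∀ i, |d i| ≤ a i) :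
    DiagDom (F * dg a * Fᴴ) (F * dg d * Fᴴ) := by
  obtain ⟨c, S, hc, hS, hQ⟩ := h.exists_sq
  have hs : Obt F (fun i => g i + c) (S * Sᵀ) := by
    rw [hS]
    exact h.shift c (by rw [← hS]; exact hQ)
  obtain ⟨c0, hdet⟩ := hs.det
  have hg : ∀ i, 0 < (fun i => g i + c) i := fun i => hs.g_pos i
  -- the logarithmic side
  have key : ∀ {n : Type} [Fintype n] [DecidableEq n] {A D : Matrix n n ℂ}, PP A D →
      sd nl (A ⊗ₖ (F * dg a * Fᴴ)) (D ⊗ₖ (F * dg d * Fᴴ)) =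
        (asm_W (fun i => g i + c) a d (S * Sᵀ) A D +
          asm_W (fun i => g i + c) a d (S * Sᵀ) A (-D)) / 2 -
          asm_W (fun i => g i + c) a d (S * Sᵀ) A 0 +
          ∑ i, asm_r (g i + c) (a i) (d i) A D := by
    intro n _ _ A D hAD
    have d1 := hdet hAD had
    have d2 := hdet (asm_PP_neg hAD) had
    have d3 := hdet (asm_PP_zero hAD) had
    have e2 : A ⊗ₖ (F * dg a * Fᴴ) + (-D) ⊗ₖ (F * dg d * Fᴴ) =
        A ⊗ₖ (F * dg a * Fᴴ) - D ⊗ₖ (F * dg d * Fᴴ) := by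
      ext ⟨i, k⟩ ⟨j, l⟩
      simp only [Matrix.add_apply, Matrix.sub_apply, kroneckerMap_apply, Matrix.neg_apply]
      ring
    have e3 : A ⊗ₖ (F * dg a * Fᴴ) + (0 : Matrix n n ℂ) ⊗ₖ (F * dg d * Fᴴ) =
        A ⊗ₖ (F * dg a * Fᴴ) := by
      rw [zero_kronecker, add_zero]
    rw [e2] at d2
    rw [e3] at d3
    have hr : ∀ i, asm_r (g i + c) (a i) (d i) A D =
        Ld (let3 (fun i => g i + c) a d A (0 : Matrix n n ℂ) i) -
        (Ld (let3 (fun i => g i + c) a d A D i) +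
          Ld (let3 (fun i => g i + c) a d A (-D) i)) / 2 := by
      intro i
      unfold asm_r let3
      simp only [smul_zero, add_zero, smul_neg, sub_eq_add_neg]
    unfold sd asm_W
    rw [d1, d2, d3, Finset.sum_congr rfl fun i _ => hr i, Finset.sum_sub_distrib,
      ← Finset.sum_div, Finset.sum_add_distrib]
    ring
  refine ⟨asm_mu (fun i => g i + c) a d (S * Sᵀ), asm_mu_sfinite _ _ _ _, asm_mu_adm had _,
    ?_, ?_⟩
  · intro n _ _ A D hAD
    rw [key hAD]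
    exact asm_main_le had hg hQ (fun h' i => hs.letter_posDef h' had i)
      (fun h' => hs.net_posDef h' had) hAD
  · intro n _ _ α δ hδ
    rw [key (PP.dg hδ)]
    exact asm_main_eq had hg hQ (fun h' i => hs.letter_posDef h' had i)
      (fun h' => hs.net_posDef h' had) hδ

theorem asm_dg_psd {c : m → ℝ} (hc : ∀ i, 0 ≤ c i) : (dg c : Matrix m m ℂ).PosSemidef := by
  refine PosSemidef.diagonal fun i => ?_
  have h4 : (0 : ℂ) ≤ ((c i : ℝ) : ℂ) := by exact_mod_cast hc i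
  exact h4

theorem ObtPair.expDom {A D : Matrix κ κ ℂ} (h : ObtPair (A + D) (A - D)) : ExpDom A D := by
  obtain ⟨m, _, _, F, g, p, q, K, hF, hp, hq, -, hS, hR⟩ := h
  have hPP : PP A D := by
    constructor
    · rw [hS]
      exact (asm_dg_psd hp).mul_mul_conjTranspose_same F
    · rw [hR]
      exact (asm_dg_psd hq).mul_mul_conjTranspose_same F
  have e1 : ∀ (u v : m → ℝ) (s t : ℝ), s • (F * dg u * Fᴴ) + t • (F * dg v * Fᴴ) =
      F * dg (fun i => s * u i + t * v i) * Fᴴ := by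
    intro u v s t
    rw [← Matrix.smul_mul, ← Matrix.mul_smul, ← Matrix.smul_mul, ← Matrix.mul_smul,
      ← Matrix.add_mul, ← Matrix.mul_add]
    congr 2
    rw [dg, dg, dg, ← diagonal_smul, ← diagonal_smul, diagonal_add]
    congr 1
    funext i
    simp
  have hA : A = F * dg (fun i => (1 / 2) * p i + (1 / 2) * q i) * Fᴴ := by
    rw [← e1, ← hS, ← hR]
    module
  have hD : D = F * dg (fun i => (1 / 2) * p i + (-(1 / 2)) * q i) * Fᴴ := by
    rw [← e1, ← hS, ← hR]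
    module
  refine DiagDom.expDom hPP ?_
  have h1 := hF.diagDom (a := fun i => (1 / 2) * p i + (1 / 2) * q i)
    (d := fun i => (1 / 2) * p i + (-(1 / 2)) * q i) (fun i => by
      have := hp i
      have := hq i
      rw [abs_le]
      constructor <;> linarith)
  rw [← hA, ← hD] at h1
  exact h1

end Pool.Agent.LDS
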